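import Pool.Agent.Helper45.LinK.GoalsN

/-! Packet BASEK: actions on `D × ℂᵏ` preserve the fibres. -/

open Complex Metric Set Filter Topology MeasureTheory
open scoped ContDiff ComplexConjugate ComplexOrder

namespace Pool.Agent.Helper89.LinK

open Pool.Agent.Helper95.Lin Pool.Agent.Helper16.Abund Pool.Agent.Helper92.Orb
open Pool.Agent.Helper45.LinK

section Iota

variable {b k : ℕ}

/-- The point `(z, w)`. -/
def io (z : Cn b) (w : Cn k) : Cn (b + k) := Fin.append z w

theorem base_io (z : Cn b) (w : Cn k) : base (io z w) = z := by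
  funext i
  simp [base, io]

theorem io_base_fib (v : Cn (b + k)) : io (base v) (fib v) = v := by
  funext i
  refine Fin.addCases (fun i => ?_) (fun i => ?_) i
  · unfold io
    rw [Fin.append_left]; rfl
  · unfold io
    rw [Fin.append_right]; rfl

theorem differentiable_io : Differentiable ℂ (fun p : Cn b × Cn k => io p.1 p.2) := by
  rw [differentiable_pi]
  intro i
  refine Fin.addCases (fun i => ?_) (fun i => ?_) i
  · unfold io
    simp only [Fin.append_left]
    fun_prop
  · unfold io
    simp only [Fin.append_right]
    fun_prop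

theorem differentiable_base' : Differentiable ℂ (base : Cn (b + k) → Cn b) := by
  rw [differentiable_pi]
  intro i
  unfold base
  fun_prop

end Iota

section Core

variable {b k : ℕ} {D : Set (Cn b)} {Γ : Type} [Group Γ] {F : Γ → Cn (b + k) → Cn (b + k)}

theorem io_mem {z : Cn b} (hz : z ∈ D) (w : Cn k) : io z w ∈ tubeK D k := by
  change base (io z w) ∈ D
  rw [base_io]
  exact hz

/-- The base map. -/
noncomputable def gg (F : Γ → Cn (b + k) → Cn (b + k)) (γ : Γ) (z : Cn b) : Cn b :=
  base (F γ (io z 0))

theorem base_const (hDb : Bornology.IsBounded D) (h : GAct (tubeK D k) F) (γ : Γ) {z : Cn b}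
    (hz : z ∈ D) (w : Cn k) : base (F γ (io z w)) = gg F γ z := by
  have h1 : Differentiable ℂ (fun w : Cn k => base (F γ (io z w))) := by
    have h2 : DifferentiableOn ℂ (fun w : Cn k => F γ (io z w)) univ := by
      apply (h.holo γ).comp
      · exact (differentiable_io.comp
          ((differentiable_const z).prodMk differentiable_id)).differentiableOn
      · intro w _
        exact io_mem hz w
    exact differentiable_base'.comp (differentiableOn_univ.1 h2)
  refine h1.apply_eq_apply_of_bounded (hDb.subset ?_) w 0
  rintro _ ⟨w, rfl⟩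
  exact h.maps γ _ (io_mem hz w)

theorem base_eq (hDb : Bornology.IsBounded D) (h : GAct (tubeK D k) F) (γ : Γ)
    {v : Cn (b + k)} (hv : v ∈ tubeK D k) : base (F γ v) = gg F γ (base v) := by
  have h1 := base_const hDb h γ (z := base v) hv (fib v)
  rw [io_base_fib] at h1
  exact h1

theorem gAct_gg (hD : IsOpen D) (hDb : Bornology.IsBounded D) (h : GAct (tubeK D k) F) :
    GAct D (gg F) where
  isOpen := hD
  holo γ := by
    refine differentiable_base'.comp_differentiableOn ?_
    apply (h.holo γ).comp
    · exact (differentiable_io.comp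
        (differentiable_id.prodMk (differentiable_const (0 : Cn k)))).differentiableOn
    · intro z hz
      exact io_mem hz 0
  maps γ z hz := h.maps γ _ (io_mem hz 0)
  one z hz := by
    unfold gg
    rw [h.one _ (io_mem hz 0), base_io]
  mul γ γ' z hz := by
    have h1 : gg F (γ * γ') z = base (F γ (F γ' (io z 0))) := by
      unfold gg
      rw [h.mul _ _ _ (io_mem hz 0)]
    rw [h1, base_eq hDb h γ (h.maps γ' _ (io_mem hz 0))]
    rfl

end Core

/-- Packet BASEK. -/
theorem baseK : S_BASEK := by
  intro b k D Γ _ F hD h
  exact ⟨gg F, gAct_gg hD.isOpen hD.bdd h, fun γ v hv => base_eq hD.bdd h γ hv⟩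

end Pool.Agent.Helper89.LinK
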